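import Mathlib
import Pool.Agent.X255.RH.Main
import Pool.Agent.N156.HG.Main

/-!
# Period relations at all roots of almost all integral polynomials: Legendre's family and its analogues with real multiplication

For a rational number `μ` in `(0, 1/2]` let `W_μ(x) = ∫_0^1 t^(-μ) (1 - t)^(μ - 1) (1 - x t)^(-μ) dt`. The numbers `W_μ(x)`, `W_μ(1 - x)` and
their derivatives are (up to algebraic factors) the periods of a direct factor of the cohomology of the curve `y^M = t (1 - t)^(M - 1) (1 - x t)`,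
`μ = k / M`; for `μ = 1/2` these are all periods of Legendre's elliptic curve `y² = t (1 - t) (1 - x t)`. For finitely many `μ` and a point `x` outside the
Hodge locus the fibre `B_{P,x}` of the Zariski closure of the period matrix is given by the relations of Legendre and Elliott, by which the
derivative of `W_μ(1 - x)` is a rational function of `π`, `W_μ(x)`, `W_μ(1 - x)` and `W_μ'(x)`. The period conjecture predicts that the numbers
`π`, `W_μ(x)`, `W_μ(1 - x)`, `W_μ'(x)` are algebraically independent, for `x` outside the Hodge locus, also for several points `x`.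

We consider all the roots `x` of an integral polynomial of degree `g` outside `(-∞, 0]` and `[1, ∞)`; so `x` runs through algebraic numbers of
degree `g` with all their conjugates. For almost all polynomials with coefficients at most `T` the numbers `W_μ(x)`, `W_μ(1 - x)`, `W_μ'(x)` for ALL
these roots `x` and all `μ` of a finite set satisfy together no algebraic relation over number fields whose degree and whose field degree is at
most `ω(T)` and whose height is at most `T ^ ω(T)`, where `ω(T) → ∞`; the coefficients of the relations may contain arbitrary given complex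
numbers `ξ_0, ξ_1, …`, for instance the powers of `π`.

The proof is an application of `Pool.Agent.X255.RH.main_all` (values of algebraically independent functions at the roots of almost all
polynomials) and of `Pool.Agent.N156.HG.relH` (the relations between the functions `W_μ` and their derivatives over `ℂ(x)`).
-/

set_option autoImplicit false

open Polynomial Filter Topology NumberField

namespace Pool.Agent.Results.MP_290158_ag.AllRootsOfPolynomials

/-- The integral `∫_0^1 t^(-μ) (1 - t)^(μ - 1) (1 - x t)^(-μ) dt`. -/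
noncomputable def W (μ : ℝ) (x : ℂ) : ℂ :=
  ∫ t in (0 : ℝ)..1, ((t ^ (-μ) * (1 - t) ^ (μ - 1) : ℝ) : ℂ) * (1 - x * t) ^ (-μ : ℂ)

/-- The numbers `W_μ(x)`, `W_μ(1 - x)` and `W_μ'(x)`. -/
noncomputable def numbers (μ : ℝ) (x : ℂ) : Fin 3 → ℂ := ![W μ x, W μ (1 - x), deriv (W μ) x]

/-- The integral vectors `a = (a_0, …, a_g)` with `|a_i| ≤ T`. -/
noncomputable def box (g T : ℕ) : Finset (Fin (g + 1) → ℤ) := Fintype.piFinset fun _ => Finset.Icc (-(T : ℤ)) (T : ℤ)

/-- The polynomial `a_0 + a_1 x + … + a_g x^g`. -/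
noncomputable def poly {g : ℕ} (a : Fin (g + 1) → ℤ) : ℂ[X] := ∑ i, C (a i : ℂ) * X ^ (i : ℕ)

/-- The plane without `(-∞, 0]` and `[1, ∞)`. -/
def domain : Set ℂ := {z | z ∈ Complex.slitPlane ∧ 1 - z ∈ Complex.slitPlane}

/-- The roots of the polynomial outside `(-∞, 0]` and `[1, ∞)`. -/
noncomputable def roots {g : ℕ} (a : Fin (g + 1) → ℤ) : Finset ℂ := by
  classical exact (poly a).roots.toFinset.filter fun z => z ∈ domain

/-- The numbers `x q` satisfy no relation of degree at most `k` in each of them with coefficients `∑_{b < k} ξ_b c_b`, where the `c_b` are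
integers of a number field of degree at most `k` all of whose conjugates are at most `T ^ k`, except the relations all of whose coefficients
vanish. -/
def NoRelation {Q : Type} [Fintype Q] [DecidableEq Q] (ξ : ℕ → ℂ) (k : ℕ) (T : ℝ) (x : Q → ℂ) : Prop :=
  ∀ (F : Type) [Field F] [NumberField F], Module.finrank ℚ F ≤ k → ∀ (io : F →+* ℂ)
    (c : (Q → Fin (k + 1)) → Fin k → 𝓞 F), (∀ l b (φ : F →+* ℂ), ‖φ (c l b : F)‖ ≤ T ^ k) →
    ∑ l, (∑ b : Fin k, ξ b * io (c l b : F)) * ∏ q, x q ^ (l q : ℕ) = 0 → ∀ l, ∑ b : Fin k, ξ b * io (c l b : F) = 0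

/-- The polynomial with the coefficients `a` has degree `g` and simple roots, and there is no relation between the numbers `W_μ(x)`,
`W_μ(1 - x)`, `W_μ'(x)`, for all `μ ∈ A` and all its roots `x` in the domain together. -/
def Good {g : ℕ} (A : Finset ℚ) (ξ : ℕ → ℂ) (k : ℕ) (T : ℝ) (a : Fin (g + 1) → ℤ) : Prop :=
  a (Fin.last g) ≠ 0 ∧ (poly a).Separable ∧
    NoRelation ξ k T fun q : {x // x ∈ roots a} × (A × Fin 3) => numbers ((q.2.1 : ℚ) : ℝ) q.1 q.2.2

open Pool.Agent.N156.HG in
theorem W_eq (μ : ℝ) : W μ = Pool.Agent.N156.HG.W μ := rfl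

theorem domain_eq : domain = Pool.Agent.N156.HG.DD := rfl

theorem tame : Pool.Agent.X255.RH.Tame domain domain := by
  refine ⟨{0, 1}, 1, one_pos, fun R => (Set.toFinite _).subset Set.inter_subset_left, fun z hz w hw => ?_⟩
  have hw' : (w.re ≤ 0 ∨ 1 ≤ w.re) ∧ w.im = 0 := by
    have h1 : ¬ (w ∈ Complex.slitPlane ∧ 1 - w ∈ Complex.slitPlane) := hw
    rw [Complex.mem_slitPlane_iff, Complex.mem_slitPlane_iff] at h1
    simp only [Complex.sub_re, Complex.one_re, Complex.sub_im, Complex.one_im, zero_sub, neg_ne_zero] at h1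
    by_cases him : w.im = 0
    · refine ⟨?_, him⟩
      by_contra h2
      push Not at h2
      exact h1 ⟨Or.inl h2.1, Or.inl (by linarith [h2.2])⟩
    · exact absurd ⟨Or.inr him, Or.inr him⟩ h1
  by_cases hzi : z.im = 0
  · left
    have hz1 : 0 < z.re := by
      rcases Complex.mem_slitPlane_iff.1 hz.1 with h | h
      · exact h
      · exact absurd hzi h
    have hz2 : z.re < 1 := by
      rcases Complex.mem_slitPlane_iff.1 hz.2 with h | h
      · rw [Complex.sub_re, Complex.one_re] at h
        linarith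
      · rw [Complex.sub_im, Complex.one_im, zero_sub, neg_ne_zero] at h
        exact absurd hzi h
    have hzr : z = (z.re : ℂ) := Complex.ext rfl (by rw [Complex.ofReal_im]; exact hzi)
    have hwr : w = (w.re : ℂ) := Complex.ext rfl (by rw [Complex.ofReal_im]; exact hw'.2)
    have h3 : ‖z - w‖ = |z.re - w.re| := by
      rw [hzr, hwr, ← Complex.ofReal_sub, Complex.norm_real, Real.norm_eq_abs]
      simp
    rcases hw'.1 with h | h
    · refine ⟨0, Or.inl rfl, ?_⟩
      have h4 : ‖z - 0‖ = |z.re| := by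
        rw [sub_zero, hzr, Complex.norm_real, Real.norm_eq_abs]
        simp
      rw [h3, h4, abs_of_pos hz1, abs_of_nonneg (by linarith)]
      linarith
    · refine ⟨1, Or.inr rfl, ?_⟩
      have h4 : ‖z - 1‖ = |z.re - 1| := by
        rw [hzr, ← Complex.ofReal_one, ← Complex.ofReal_sub, Complex.norm_real, Real.norm_eq_abs]
        simp
      rw [h3, h4, abs_of_neg (by linarith), abs_of_neg (by linarith)]
      linarith
  · right
    left
    refine ⟨hzi, ?_⟩
    have h1 := Complex.abs_im_le_norm (z - w)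
    rwa [Complex.sub_im, hw'.2, sub_zero] at h1

open Pool.Agent.N156.HG Pool.Agent.Y890.SM Pool.Agent.Y890.MV in
/-- algebraic independence over `ℂ(x)` -/
theorem ind (A : Finset ℚ) (hA : ∀ μ ∈ A, 0 < μ ∧ μ ≤ 1 / 2) :
    Pool.Agent.X255.RH.Indep domain (fun (q : A × Fin 3) (x : ℂ) => numbers ((q.1 : ℚ) : ℝ) x q.2) := by
  classical
  intro P hP
  -- the polynomial in the entries of the matrices
  let ψ : ℂ[X] →+* MvPolynomial (Fin (0 + 1)) ℂ := Polynomial.eval₂RingHom MvPolynomial.C (MvPolynomial.X 0)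
  let ε : A × Fin 3 → Ix (n2 (Fin (0 + 1) × A)) := fun q =>
    ⟨(0, q.1), (![((0 : Fin 2), (0 : Fin 2)), (1, 0), (0, 1)] : Fin 3 → Fin 2 × Fin 2) q.2⟩
  have hψ : ∀ e : Fin (0 + 1) → ℂ, (MvPolynomial.eval e).comp ψ = Polynomial.evalRingHom (e 0) := by
    intro e
    refine Polynomial.ringHom_ext (fun c => ?_) ?_
    · simp [ψ]
    · simp [ψ]
  have hev : ∀ (e : Fin (0 + 1) → ℂ) (Y : Ix (n2 (Fin (0 + 1) × A)) → ℂ),
      evX e Y (MvPolynomial.rename ε (MvPolynomial.map ψ P)) =
        MvPolynomial.eval₂ (Polynomial.evalRingHom (e 0)) (Y ∘ ε) P := by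
    intro e Y
    unfold evX
    rw [MvPolynomial.eval₂_rename, MvPolynomial.eval₂_map, hψ]
  have hfun : ∀ x ∈ domain, ∀ q : A × Fin 3, numbers ((q.1 : ℚ) : ℝ) x q.2 =
      PH ((q.1 : ℚ) : ℝ) x (ε q).2.1 (ε q).2.2 := by
    rintro x hx ⟨μ, i⟩
    have h1 := lt_one (hA μ.1 μ.2)
    fin_cases i
    · rfl
    · rfl
    · exact (W_deriv h1.1 h1.2 (DD_sub hx)).deriv
  have key : ∀ x ∈ domain, ∀ y : A × Fin 3 → ℂ, (∀ μ, y (μ, 0) ≠ 0) →
      MvPolynomial.eval₂ (Polynomial.evalRingHom x) y P = 0 := by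
    intro x hx y hy
    let e : Fin (0 + 1) → ℂ := fun _ => x
    have he : e ∈ UU 0 := mem_UU.2 fun _ => hx
    have hx0 : x ≠ 0 := Complex.slitPlane_ne_zero hx.1
    have hx1 : 1 - x ≠ 0 := Complex.slitPlane_ne_zero hx.2
    let c : A → ℂ := fun μ => tpi / (-(2 * Complex.I) * ((Real.sin (Real.pi * (μ.1 : ℚ)) : ℝ) : ℂ) * (x * (1 - x)))
    let Y : TupH 0 A := fun q => !![y (q.2, 0), y (q.2, 2); y (q.2, 1), (c q.2 + y (q.2, 2) * y (q.2, 1)) / y (q.2, 0)]
    have hY : (Y, tpi) ∈ torH A e := by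
      refine ⟨by unfold tpi; exact Complex.two_pi_I_ne_zero, fun q => ?_⟩
      have h1 := lt_one (hA q.2.1 q.2.2)
      have hs : ((Real.sin (Real.pi * (q.2.1 : ℚ)) : ℝ) : ℂ) ≠ 0 := by
        have h2 : 0 < Real.sin (Real.pi * ((q.2.1 : ℚ) : ℝ)) :=
          Real.sin_pos_of_pos_of_lt_pi (mul_pos Real.pi_pos h1.1) (by nlinarith [Real.pi_pos, h1.2])
        exact_mod_cast h2.ne'
      have hdet : (Y q).det = c q.2 := by
        simp only [Y, Matrix.det_fin_two_of]
        have h0 := hy q.2
        field_simp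
        ring
      change -(2 * Complex.I) * ((Real.sin (Real.pi * (q.2.1 : ℚ)) : ℝ) : ℂ) * (x * (1 - x)) * (Y q).det = tpi
      rw [hdet]
      simp only [c]
      rw [mul_div_cancel₀]
      refine mul_ne_zero (mul_ne_zero (neg_ne_zero.2 (mul_ne_zero two_ne_zero Complex.I_ne_zero)) hs) (mul_ne_zero hx0 hx1)
    have h1 := relH hA (MvPolynomial.rename ε (MvPolynomial.map ψ P)) (fun e' he' => by
      rw [hev]
      have h2 := hP (e' 0) (mem_UU.1 he' 0)
      rw [← h2]
      unfold Pool.Agent.Y890.SP.evF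
      congr 1
      funext q
      exact (hfun (e' 0) (mem_UU.1 he' 0) q).symm) e he Y hY
    rw [hev] at h1
    rw [← h1]
    congr 1
    funext ⟨μ, i⟩
    fin_cases i
    · rfl
    · rfl
    · rfl
  have hPx : ∀ x ∈ domain, MvPolynomial.map (Polynomial.evalRingHom x) P = 0 := by
    intro x hx
    have h1 : MvPolynomial.map (Polynomial.evalRingHom x) P * ∏ μ : A, MvPolynomial.X (μ, (0 : Fin 3)) = 0 := by
      refine MvPolynomial.funext fun y => ?_
      rw [map_mul, map_zero, map_prod]
      by_cases hy : ∀ μ, y (μ, 0) ≠ 0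
      · have h2 := key x hx y hy
        rw [MvPolynomial.eval_map, h2, zero_mul]
      · push Not at hy
        obtain ⟨μ, hμ⟩ := hy
        rw [Finset.prod_eq_zero (Finset.mem_univ μ) (by rw [MvPolynomial.eval_X]; exact hμ), mul_zero]
    rcases mul_eq_zero.1 h1 with h2 | h2
    · exact h2
    · exact absurd h2 (Finset.prod_ne_zero_iff.2 fun μ _ => MvPolynomial.X_ne_zero _)
  have hinf : domain.Infinite := infinite_of_mem_nhds (((1 / 2 : ℝ)) : ℂ)
    (isOpen_DD.mem_nhds (real_mem_DD (by norm_num) (by norm_num)))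
  ext1 m
  rw [MvPolynomial.coeff_zero]
  refine Polynomial.eq_zero_of_infinite_isRoot _ (hinf.mono fun x hx => ?_)
  have h1 := congrArg (MvPolynomial.coeff m) (hPx x hx)
  rw [MvPolynomial.coeff_map, MvPolynomial.coeff_zero, Polynomial.coe_evalRingHom] at h1
  exact h1

theorem an (A : Finset ℚ) (hA : ∀ μ ∈ A, 0 < μ ∧ μ ≤ 1 / 2) (q : A × Fin 3) :
    AnalyticOnNhd ℂ (fun x => numbers ((q.1 : ℚ) : ℝ) x q.2) domain := by
  have h1 := Pool.Agent.N156.HG.lt_one (hA q.1.1 q.1.2)
  have hD1 : ∀ x ∈ Pool.Agent.N156.HG.D1, AnalyticAt ℂ (W ((q.1 : ℚ) : ℝ)) x := by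
    have h2 : DifferentiableOn ℂ (W ((q.1 : ℚ) : ℝ)) Pool.Agent.N156.HG.D1 := fun x hx =>
      (Pool.Agent.N156.HG.W_deriv h1.1 h1.2 hx).differentiableAt.differentiableWithinAt
    exact h2.analyticOnNhd Pool.Agent.N156.HG.isOpen_D1
  intro x hx
  obtain ⟨μ, i⟩ := q
  fin_cases i
  · exact hD1 x (Pool.Agent.N156.HG.DD_sub hx)
  · exact AnalyticAt.fun_comp (g := W ((μ : ℚ) : ℝ)) (f := fun x => 1 - x) (hD1 (1 - x) (Pool.Agent.N156.HG.DD_sub' hx))
      (analyticAt_const.sub analyticAt_id)
  · exact (hD1 x (Pool.Agent.N156.HG.DD_sub hx)).deriv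

open scoped Classical in
/-- **All roots of almost all polynomials.** Let `A` be a finite set of rational numbers in `(0, 1/2]`. For every degree `g ≥ 1` and all complex
numbers `ξ_0, ξ_1, …` there is a function `ω(T) → ∞` such that among the `(2 T + 1)^(g + 1)` integral polynomials with coefficients at most `T`
at most the proportion `1 / ω(T)` is not good. -/
theorem result (g : ℕ) (hg : 0 < g) (A : Finset ℚ) (hA : ∀ μ ∈ A, 0 < μ ∧ μ ≤ 1 / 2) (ξ : ℕ → ℂ) :
    ∃ ω : ℕ → ℕ, Tendsto ω atTop atTop ∧ Monotone ω ∧ ∀ T : ℕ,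
      ω T * ((box g T).filter fun a => ¬ Good A ξ (ω T) T a).card ≤ (box g T).card :=
  Pool.Agent.X255.RH.main_all hg Pool.Agent.N156.HG.conn_DD Pool.Agent.N156.HG.isOpen_DD (fun _ => domain)
    (fun _ => tame) (an A hA) (ind A hA) ξ

end Pool.Agent.Results.MP_290158_ag.AllRootsOfPolynomials
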