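import Pool.Agent.N207.GQ.Om
import Pool.Agent.N232.GQ.Mat
import Pool.Agent.N607.GQ.Ind
import Pool.Agent.N568.GQ.Elim
import Pool.Agent.N712.GQ.SUB

/-!
# Period relations at almost all points of an arbitrary family

Let `f : X → S` be a family over a smooth variety `S` with an étale map to an affine space. Locally the period matrix
`P` is a matrix of analytic functions of the coordinates `x`, and the algebraic functions on `S` are generated by
further analytic functions `θ`. The closure `B_P` of the graph of `P` over the field of algebraic numbers is the set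
of the common zeros of all polynomial relations between `x`, `θ` and `P` with algebraic coefficients. We show, for
arbitrary analytic `P` and `θ`, that at almost all points `s` over number fields all relations of growing degree and
height over number fields between the entries of `P(s)` and `θ(s)` hold on the irreducible component of the fibre
`B_{P,s}` which contains `P(s)`.
-/

set_option autoImplicit false

open Matrix Filter NumberField

namespace Pool.Agent.Results.MP_290158_ag.EveryFamily

/-! ### Families and the closure of the graph -/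

/-- A family: a matrix `P` and a vector `θ` of analytic functions on a connected nonempty open set `U` -/
structure Family {X : Type} [Fintype X] {n r : ℕ} (U : Set (X → ℂ)) (P : (X → ℂ) → Matrix (Fin n) (Fin n) ℂ)
    (θ : (X → ℂ) → Fin r → ℂ) : Prop where
  isOpen : IsOpen U
  connected : IsPreconnected U
  nonempty : U.Nonempty
  analytic : ∀ a b, AnalyticOnNhd ℂ (fun x => P x a b) U
  analytic' : ∀ i, AnalyticOnNhd ℂ (fun x => θ x i) U

/-- the point with the coordinates `A`, `t` -/
def point {n r : ℕ} (A : Matrix (Fin n) (Fin n) ℂ) (t : Fin r → ℂ) : (Fin n × Fin n) ⊕ Fin r → ℂ :=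
  Sum.elim (fun y => A y.1 y.2) t

/-- the field of algebraic numbers -/
abbrev Qbar : Type := algebraicClosure ℚ ℂ

/-- the evaluation at `x` of polynomials with algebraic coefficients -/
noncomputable def evalAt {X : Type} (x : X → ℂ) : MvPolynomial X Qbar →+* ℂ :=
  MvPolynomial.eval₂Hom (algebraMap Qbar ℂ) x

/-- the fibre `B_{P,x}` over `x` of the Zariski closure, over the field of algebraic numbers, of the graph of `(P, θ)`:
the common zeros of all polynomial relations over `Qbar[x]` between the functions, specialised at `x` -/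
def Fibre {X : Type} [Fintype X] {n r : ℕ} (U : Set (X → ℂ)) (P : (X → ℂ) → Matrix (Fin n) (Fin n) ℂ)
    (θ : (X → ℂ) → Fin r → ℂ) (x : X → ℂ) : Set ((Fin n × Fin n) ⊕ Fin r → ℂ) :=
  {a | ∀ p : MvPolynomial ((Fin n × Fin n) ⊕ Fin r) (MvPolynomial X Qbar),
    (∀ z ∈ U, p.eval₂ (evalAt z) (point (P z) (θ z)) = 0) → p.eval₂ (evalAt x) a = 0}

/-- a set is irreducible if a product of two polynomials vanishes on it only if one of them does -/
def Irreducible {σ : Type} (S : Set (σ → ℂ)) : Prop := ∀ F G : MvPolynomial σ ℂ,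
  (∀ b ∈ S, MvPolynomial.eval b F * MvPolynomial.eval b G = 0) →
    (∀ b ∈ S, MvPolynomial.eval b F = 0) ∨ ∀ b ∈ S, MvPolynomial.eval b G = 0

/-- the union of the irreducible components of the fibre over `x` which contain the point `(P x, θ x)`, that is, of all
irreducible subsets `S` of the fibre which contain this point -/
def Component {X : Type} [Fintype X] {n r : ℕ} (U : Set (X → ℂ)) (P : (X → ℂ) → Matrix (Fin n) (Fin n) ℂ)
    (θ : (X → ℂ) → Fin r → ℂ) (x : X → ℂ) : Set ((Fin n × Fin n) ⊕ Fin r → ℂ) :=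
  {a | ∃ S : Set ((Fin n × Fin n) ⊕ Fin r → ℂ), Irreducible S ∧ S ⊆ Fibre U P θ x ∧ point (P x) (θ x) ∈ S ∧ a ∈ S}

/-! ### Exceptional points -/

/-- `x` is a quotient of two integers of `K` all of whose conjugates are at most `T` in absolute value -/
def Height (K : Type) [Field K] [NumberField K] (T : ℝ) (x : K) : Prop :=
  ∃ a b : 𝓞 K, b ≠ 0 ∧ house (a : K) ≤ T ∧ house (b : K) ≤ T ∧ x = a / b

/-- the points of norm at most `k` at distance at least `1 / k` from the complement of `U` -/
def Inner {X : Type} [Fintype X] (U : Set (X → ℂ)) (k : ℕ) : Set (X → ℂ) := {z | ‖z‖ ≤ k ∧ Metric.ball z (k : ℝ)⁻¹ ⊆ U}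

/-- `S` is covered by `m` hypersurfaces of degree at most `D` -/
def Covered {X : Type} (D m : ℕ) (S : Set (X → ℂ)) : Prop :=
  ∃ Φ : Finset (MvPolynomial X ℂ), Φ.card ≤ m ∧ (∀ R ∈ Φ, R ≠ 0 ∧ R.totalDegree ≤ D) ∧
    ∀ x ∈ S, ∃ R ∈ Φ, MvPolynomial.eval x R = 0

/-- **The exceptional points**: `s` in `K ^ X`, of height at most `T`, in the compact set `Inner U k`, such that some
polynomial `R` of partial degrees at most `k`, whose coefficients are combinations `∑ ξ i * c i` with integers `c i` of
`K` all of whose conjugates are at most `T ^ k`, with algebraic numbers `ξ i`, vanishes at `(P(s), θ(s))` but not on all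
of `Component U P θ s` -/
def Exceptional {X : Type} [Fintype X] {n r : ℕ} (U : Set (X → ℂ)) (P : (X → ℂ) → Matrix (Fin n) (Fin n) ℂ)
    (θ : (X → ℂ) → Fin r → ℂ) (K : Type) [Field K] [NumberField K] (io : K →+* ℂ)
    (k : ℕ) (ξ : Fin k → ℂ) (T : ℝ) : Set (X → K) :=
  {s | (∀ j, Height K T (s j)) ∧ (fun j => io (s j)) ∈ Inner U k ∧ (∀ i, IsAlgebraic ℚ (ξ i)) ∧
    ∃ R : MvPolynomial ((Fin n × Fin n) ⊕ Fin r) ℂ, (∀ y, R.degreeOf y ≤ k) ∧
    (∀ m, ∃ c : Fin k → 𝓞 K, (∀ i (φ : K →+* ℂ), ‖φ (c i : K)‖ ≤ T ^ (k : ℝ)) ∧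
      R.coeff m = ∑ i, ξ i * io (c i : K)) ∧
    MvPolynomial.eval (point (P fun j => io (s j)) (θ fun j => io (s j))) R = 0 ∧
    ∃ a ∈ Component U P θ (fun j => io (s j)), MvPolynomial.eval a R ≠ 0}

/-! ### Comparison with the library -/

theorem evalAt_eq {X : Type} (x : X → ℂ) : evalAt x = (MvPolynomial.eval x).comp N207.GQ.upX := by
  apply MvPolynomial.ringHom_ext
  · intro a
    simp [evalAt, N207.GQ.upX]
  · intro i
    simp [evalAt, N207.GQ.upX]

theorem fibre_eq {X : Type} [Fintype X] {n r : ℕ} (U : Set (X → ℂ)) (P : (X → ℂ) → Matrix (Fin n) (Fin n) ℂ)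
    (θ : (X → ℂ) → Fin r → ℂ) (x : X → ℂ) : Fibre U P θ x = N207.GQ.FibQ U (N207.GS.fn P θ) x := by
  unfold Fibre N207.GQ.FibQ
  simp only [evalAt_eq, Y890.MV.evM_eq, N207.GQ.evX_up]
  rfl

/-- **Relations between the periods of almost all fibres of an arbitrary family.** Let `(P, θ)` be any family of analytic
matrices and vectors on a connected nonempty open set `U`.

There is `ω → ∞` such that for all large `T`, all number fields `K` of degree at most `ω T`, all embeddings and all
algebraic numbers `ξ i`, `i < ω T`, the exceptional points lie on at most `T ^ (1 / ω T)` hypersurfaces of degree at most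
`T ^ (1 / ω T)`, and there are at most `T ^ (1 / ω T) * N ^ (|X| - 1)` of them, `N` being the number of elements of `K` of
height at most `T`. So at the other points `s` all relations of growing degree and height between the entries of `P(s)`
and `θ(s)` hold on the component through `(P(s), θ(s))` of the fibre over `s` of the Zariski closure of the graph over
the field of algebraic numbers. If the fibre is irreducible, this component is the whole fibre: there are no relations
which do not hold on the fibre. -/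
theorem result (X : Type) [Fintype X] [DecidableEq X] [Nonempty X] (n r : ℕ) (U : Set (X → ℂ))
    (P : (X → ℂ) → Matrix (Fin n) (Fin n) ℂ) (θ : (X → ℂ) → Fin r → ℂ) (h : Family U P θ) :
    (∀ x ∈ U, point (P x) (θ x) ∈ Component U P θ x ∧
      (Irreducible (Fibre U P θ x) → Component U P θ x = Fibre U P θ x)) ∧
      ∃ (ω : ℝ → ℕ) (T₀ : ℝ), Tendsto ω atTop atTop ∧ Monotone ω ∧ ∀ T, T₀ ≤ T → 0 < ω T ∧
        ∀ (K : Type) [Field K] [NumberField K], Module.finrank ℚ K ≤ ω T → ∀ (io : K →+* ℂ) (ξ : Fin (ω T) → ℂ),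
          Covered ⌊T ^ ((ω T : ℝ)⁻¹)⌋₊ ⌊T ^ ((ω T : ℝ)⁻¹)⌋₊
            ((fun (s : X → K) i => io (s i)) '' Exceptional U P θ K io (ω T) ξ T) ∧
          (Exceptional U P θ K io (ω T) ξ T).Finite ∧
          ((Exceptional U P θ K io (ω T) ξ T).ncard : ℝ) ≤
            T ^ ((ω T : ℝ)⁻¹) * ({x : K | Height K T x}.ncard : ℝ) ^ (Fintype.card X - 1) := by
  refine ⟨fun x hx => ⟨⟨{point (P x) (θ x)}, ?_, ?_, rfl, rfl⟩, fun hirr => ?_⟩, ?_⟩
  · intro F G hFG
    rcases mul_eq_zero.1 (hFG _ rfl) with h1 | h1
    · exact Or.inl fun b hb => by rw [Set.mem_singleton_iff.1 hb]; exact h1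
    · exact Or.inr fun b hb => by rw [Set.mem_singleton_iff.1 hb]; exact h1
  · rintro _ rfl p hp
    exact hp x hx
  · ext a
    constructor
    · rintro ⟨S, -, h2, -, h4⟩
      exact h2 h4
    · intro ha
      exact ⟨_, hirr, Set.Subset.refl _, fun p hp => hp x hx, ha⟩
  · refine (N207.GQ.excA_few N232.GQ.mat N568.GQ.elim N607.GQ.ind N712.GQ.sub h.connected h.isOpen h.nonempty
      (N207.GS.fn_an h.analytic h.analytic')).mono fun K _ _ io k ξ T => ?_
    rintro s ⟨h1, h2, h3, R, h4, h5, h6, a, ⟨S, h7, h8, h9, h10⟩, h11⟩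
    rw [fibre_eq] at h8
    exact ⟨h1, h2, h3, R, h4, h5, h6, S, h7, h9, h8, a, h10, h11⟩

end Pool.Agent.Results.MP_290158_ag.EveryFamily
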