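import Pool.Agent.N733.TG.M
import Pool.Agent.Results.MP_290158_ag.HypergeometricAlgebraicPoints

/-!
# Period relations in the hypergeometric families at the values of multiplicative functions

Let `β_1, …, β_m` be rational numbers which are not integers. Consider the fibres `z = 1 / ξ` of the hypergeometric family
of Calabi–Yau type with the exponents `±β_j`. Let `F_1, …, F_k` be positive multiplicative functions of at most polynomial
growth with `F_i p ≤ M p` for the large primes `p`, with different values at different large primes; for example Euler's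
function or the sum of the divisors. For all `(v_1, …, v_k) ∈ {1, …, N}^k` but `N^k / (log N)^U` there are no exceptional
relations of degree `≤ δ` between the logarithms and the periods of the fibres `z_i = 1 / F_i(v_i)`, with coefficients in
`L V`, `L` any number field of degree `≤ d`, for a given space `V` of constants. The values of the `F_i` are in general taken
with very large multiplicities, and so this does not follow from the size of the exceptional set.

Proof. The starting theorem `HypergeometricAlgebraicPoints` bounds the number of the exceptional tuples of integers with a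
power saving, and the tool of `Pool.Agent.N733.TG` says that tuples of values of such functions avoid sets with a power
saving.
-/

set_option autoImplicit false

namespace Pool.Agent.Results.MP_290158_ag.MultiplicativeValues

open Pool.Agent.N733.TG (LM lm_totient lm_sigma keep_tuples2)
open Pool.Agent.Results.MP_290158_ag.HypergeometricAlgebraicPoints (Exceptional House)

lemma house_nat {w T : ℕ} (h : w ≤ T) : House 1 T (w : ℂ) := by
  have h1 : minpoly ℚ ((w : ℕ) : ℂ) = Polynomial.X - Polynomial.C (w : ℚ) := by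
    have := minpoly.eq_X_sub_C (A := ℚ) (B := ℂ) (w : ℚ)
    rw [show (algebraMap ℚ ℂ) (w : ℚ) = ((w : ℕ) : ℂ) by simp] at this
    exact this
  refine ⟨?_, ?_, ?_⟩
  · have := isIntegral_algebraMap (R := ℤ) (A := ℂ) (x := (w : ℤ))
    simpa using this
  · rw [h1, Polynomial.natDegree_X_sub_C]
  · intro z hz
    rw [h1] at hz
    simp only [map_sub, Polynomial.aeval_X, Polynomial.aeval_C] at hz
    have hz' : z = (w : ℂ) := by
      rw [sub_eq_zero] at hz
      rw [hz]
      simp
    rw [hz', Complex.norm_natCast]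
    exact_mod_cast h

lemma house_int {T : ℕ} {ξ : ℂ} (h : House 1 T ξ) : ∃ n : ℤ, (n : ℂ) = ξ ∧ -(T : ℤ) ≤ n ∧ n ≤ T := by
  obtain ⟨h1, h2, h3⟩ := h
  have h4 : IsIntegral ℚ ξ := h1.tower_top
  have h5 : ξ ∈ (algebraMap ℚ ℂ).range := by
    have h6 : (minpoly ℚ ξ).natDegree = 1 := le_antisymm h2 (minpoly.natDegree_pos h4)
    exact minpoly.natDegree_eq_one_iff.mp h6
  obtain ⟨q, hq⟩ := h5
  have h7 : IsIntegral ℤ q := by
    rw [← hq] at h1
    exact (isIntegral_algebraMap_iff (algebraMap ℚ ℂ).injective).mp h1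
  obtain ⟨n, hn⟩ := IsIntegrallyClosed.isIntegral_iff.mp h7
  have h8 : (n : ℂ) = ξ := by
    rw [← hq, ← hn]
    simp
  refine ⟨n, h8, ?_⟩
  have h9 := h3 ξ (minpoly.aeval ℚ ξ)
  rw [← h8] at h9
  have h10 : (|n| : ℝ) ≤ T := by
    have := h9
    rwa [Complex.norm_intCast] at this
  have h11 : |n| ≤ (T : ℤ) := by exact_mod_cast h10
  exact abs_le.mp h11

lemma house_finite (T : ℕ) : {ξ : ℂ | House 1 T ξ}.Finite ∧ {ξ : ℂ | House 1 T ξ}.ncard ≤ 2 * T + 1 := by
  have hsub : {ξ : ℂ | House 1 T ξ} ⊆ (fun n : ℤ => (n : ℂ)) '' ((Finset.Icc (-(T : ℤ)) T : Finset ℤ) : Set ℤ) := by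
    intro ξ hξ
    obtain ⟨n, h1, h2, h3⟩ := house_int hξ
    exact ⟨n, by simp [h2, h3], h1⟩
  have hfin : ((fun n : ℤ => (n : ℂ)) '' ((Finset.Icc (-(T : ℤ)) T : Finset ℤ) : Set ℤ)).Finite :=
    (Finset.finite_toSet _).image _
  refine ⟨hfin.subset hsub, (Set.ncard_le_ncard hsub hfin).trans ?_⟩
  refine (Set.ncard_image_le (Finset.finite_toSet _)).trans ?_
  rw [Set.ncard_coe_finset, Int.card_Icc]
  omega

/-- **Period relations at the values of multiplicative functions.** Let `β` be a finite non-empty family of rational numbers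
which are not integers. For all `k ≥ 1`, `d`, `δ`, `D`, all functions `F_1, …, F_k` with the property `LM` and all `U` there is
`N_0` such that for all `N ≥ N_0`, every `ℚ`-space `V` of constants of dimension `≤ D` and all constant matrices `Ω_i`, for all
`v ∈ {1, …, N}^k` but at most `N^k / (log N)^U`, the numbers `ξ_i = F_i(v_i)` are at least `2` and the tuple of the fibres
`z_i = 1 / ξ_i` is not exceptional. Euler's function and the sum of the divisors have the property `LM`. -/
theorem result {m : ℕ} (hm : 1 ≤ m) (β : Fin m → ℚ) (hβ : ∀ j, ∀ a : ℤ, β j ≠ a) :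
    (∀ k d δ D : ℕ, 1 ≤ k → ∀ F : Fin k → ℕ → ℕ, (∀ i, LM (F i)) → ∀ U : ℕ, ∃ N₀ : ℕ, ∀ N : ℕ, N₀ ≤ N →
      ∀ V : Submodule ℚ ℂ, Module.Finite ℚ V → Module.finrank ℚ V ≤ D →
      ∀ Ω : Fin k → Matrix (Fin (2 * m)) (Fin (2 * m)) ℂ,
      ({v : Fin k → ℕ | (∀ i, 1 ≤ v i ∧ v i ≤ N) ∧ ¬ ((∀ i, 2 ≤ F i (v i)) ∧
        ¬ Exceptional δ d V β Ω (fun i => ((F i (v i) : ℕ) : ℂ)))}.ncard : ℝ) ≤ (N : ℝ) ^ k / Real.log N ^ U) ∧
    LM Nat.totient ∧ LM (fun m => ∑ d ∈ m.divisors, d) := by
  classical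
  refine ⟨fun k d δ D hk F hF U => ?_, lm_totient, lm_sigma⟩
  obtain ⟨c, C, hc, h⟩ := (Pool.Agent.Results.MP_290158_ag.HypergeometricAlgebraicPoints.result hm β hβ).2.2
    k 1 d δ D le_rfl
  obtain ⟨N₀, hN₀⟩ := keep_tuples2 hk hF hc U (|C| * 3 ^ k)
  refine ⟨N₀, fun N hN V hV hVD Ω => ?_⟩
  exact hN₀ N hN {w : Fin k → ℕ | Exceptional δ d V β Ω (fun i => ((w i : ℕ) : ℂ))} (fun X hX => by
    have hX1 : (1 : ℝ) ≤ X := by exact_mod_cast hX
    have h1 := h V hV hVD Ω X hX
    obtain ⟨hf1, hf2⟩ := house_finite X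
    have hfin : {ξ : Fin k → ℂ | (∀ i, House 1 X (ξ i)) ∧ Exceptional δ d V β Ω ξ}.Finite := by
      refine (Set.Finite.pi' (fun _ : Fin k => hf1)).subset ?_
      intro ξ hξ i
      exact hξ.1 i
    have h2 : {w : Fin k → ℕ | (∀ i, 2 ≤ w i ∧ w i ≤ X) ∧ w ∈ {w : Fin k → ℕ | Exceptional δ d V β Ω
        (fun i => ((w i : ℕ) : ℂ))}}.ncard ≤
        {ξ : Fin k → ℂ | (∀ i, House 1 X (ξ i)) ∧ Exceptional δ d V β Ω ξ}.ncard := by
      refine Set.ncard_le_ncard_of_injOn (fun (w : Fin k → ℕ) (i : Fin k) => ((w i : ℕ) : ℂ)) ?_ ?_ hfin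
      · intro w hw
        exact ⟨fun i => house_nat (hw.1 i).2, hw.2⟩
      · intro a _ b _ hab
        funext i
        have := congrFun hab i
        simp only at this
        exact_mod_cast this
    have h3 : (((({ξ : ℂ | House 1 X ξ}.ncard : ℕ) : ℝ)) ^ k) ≤ (3 * (X : ℝ)) ^ k := by
      apply pow_le_pow_left₀ (by positivity)
      have : (({ξ : ℂ | House 1 X ξ}.ncard : ℕ) : ℝ) ≤ 2 * X + 1 := by exact_mod_cast hf2
      linarith
    calc (({w : Fin k → ℕ | (∀ i, 2 ≤ w i ∧ w i ≤ X) ∧ w ∈ {w : Fin k → ℕ | Exceptional δ d V β Ω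
          (fun i => ((w i : ℕ) : ℂ))}}.ncard : ℕ) : ℝ)
        ≤ (({ξ : Fin k → ℂ | (∀ i, House 1 X (ξ i)) ∧ Exceptional δ d V β Ω ξ}.ncard : ℕ) : ℝ) := by exact_mod_cast h2
      _ ≤ C * (X : ℝ) ^ (-c) * (({ξ : ℂ | House 1 X ξ}.ncard : ℕ) : ℝ) ^ k := h1
      _ ≤ |C| * (X : ℝ) ^ (-c) * (({ξ : ℂ | House 1 X ξ}.ncard : ℕ) : ℝ) ^ k := by
          gcongr
          exact le_abs_self C
      _ ≤ |C| * (X : ℝ) ^ (-c) * (3 * (X : ℝ)) ^ k := by gcongr
      _ = |C| * 3 ^ k * (X : ℝ) ^ ((k : ℝ) - c) := by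
          rw [mul_pow, show (k : ℝ) - c = -c + k by ring, Real.rpow_add (by linarith), Real.rpow_natCast]
          ring)

end Pool.Agent.Results.MP_290158_ag.MultiplicativeValues
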