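import Pool.Agent.N207.UH.Main
import Pool.Agent.N207.UH.Real

/-!
# The period conjecture for the universal hyperelliptic 1-motives, over all number fields

For every `i` in a finite set let `C_i : y² = F_i(x) = ∏ (x - e_(i,r))`, `r ≤ n_i`, `n_i` even, be a hyperelliptic curve
with marked points over `x = z_(i,s)`, `s < m_i`. All branch points `e_(i,r)` and all marked points `z_(i,s)` are
variable. We consider the numbers

* `∫ x^j dx / √(± F_i)` from `e_(i,l)` to `e_(i,l+1)`, `j < n_i`: the periods and quasi-periods of `C_i`,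
* `∫ x^j dx / √F_i` from `e_(i,n_i)` to `z_(i,s)`, `j < n_i`: the integrals of the first and of the second kind,
* `∫ dx / ((x - z_(i,t)) √F_i)` from `e_(i,n_i)` to `z_(i,s)`, `s < t`: the integrals of the third kind,
* `∫ dx / (x - z_(i,t))` from `e_(i,n_i)` to `z_(i,s)`, `s < t`.

These are periods of the 1-motives `H¹(C_i ∖ {x = z_(i,t)}, {x = z_(i,s)} ∪ {e_(i,n_i)})` of points on (in general
non-split) extensions of the Jacobian of `C_i` by tori; the other periods of these 1-motives are, by the reciprocity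
law, polynomials in `π` and the numbers above over the field generated by the parameters and the `√F_i(z_(i,t))`. The
period conjecture says that for general parameters in a number field `K` the relations over `K` between these numbers
and `π` are those of the torsor given by the Riemann-Legendre relations `P_i Q_i P_iᵀ = π J` for the period matrices
`P_i` (with the same `π` for all `i`), and that the other numbers are free. The theorem proves this for the relations of
degree at most `ω(T)` and size at most `T ^ ω(T)`, for all the parameters of height at most `T` in all the number fields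
of degree at most `ω(T)`, outside few hypersurfaces of small degree, with a function `ω` which tends to infinity; and
the same relative to arbitrary constants `ξ` (for instance the periods of another motive).

Proof: in the space of all parameters the functional relations are those of the torsor. For the periods this is the
monodromy theorem of the library `Y890.HE`; the integrals with the end point `z_(i,0)` are independent over the field of
the functions which do not depend on `z_(i,0)`, by Ostrowski's theorem and a computation of residues for the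
differentials of the three kinds (`UH.third`, `UH.indep3`); then one proceeds by induction on the number of the marked
points. The sparsity of the exceptional parameters follows with the theorem of the library `Y890.MV`.
-/

namespace Pool.Agent.Results.MP_290158_ag.UniversalHyperelliptic

open Filter NumberField

variable {ι : Type}

/-- The pairs `(s, t)` of marked points, `s < t`. -/
abbrev Pairs (m : ℕ) : Type := {q : Fin m × Fin m // q.1 < q.2}

/-- The names of the parameters: branch points `e_(i,r)`, `r ≤ n i`, and marked points `z_(i,s)`, `s < m i`. -/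
abbrev Params (n m : ι → ℕ) : Type := Σ i, Fin (n i + 1) ⊕ Fin (m i)

/-- The names of the numbers. -/
abbrev Coords (n m : ι → ℕ) : Type :=
  Σ i, (Fin (n i) × Fin (n i)) ⊕ ((Fin (m i) × Fin (n i)) ⊕ (Pairs (m i) ⊕ Pairs (m i)))

/-- The parameters such that for every `i` the real parts of `e_(i,0), …, e_(i,n i), z_(i,0), …, z_(i,m i - 1)`
increase. -/
def Domain (n m : ι → ℕ) : Set (Params n m → ℂ) :=
  {x | ∀ i, (∀ r s : Fin (n i + 1), r < s → (x ⟨i, Sum.inl r⟩).re < (x ⟨i, Sum.inl s⟩).re) ∧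
    (∀ s : Fin (m i), (x ⟨i, Sum.inl (Fin.last (n i))⟩).re < (x ⟨i, Sum.inr s⟩).re) ∧
    ∀ s t : Fin (m i), s < t → (x ⟨i, Sum.inr s⟩).re < (x ⟨i, Sum.inr t⟩).re}

/-- The point of the segment from `p` to `q` with the parameter `u`. -/
noncomputable def segment (p q : ℂ) (u : ℝ) : ℂ := (1 - u) * p + u * q

/-- The integral of `x ^ j dx / √(± F)`, `F = ∏ (x - e i)`, from `e l` to `e (l + 1)`, with
`x = e l + (e (l + 1) - e l) (sin θ)²`. -/
noncomputable def cycleIntegral {n : ℕ} (e : Fin (n + 1) → ℂ) (l : Fin n) (j : ℕ) : ℂ :=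
  ∫ θ in (0 : ℝ)..(Real.pi / 2), 2 * (segment (e l.castSucc) (e l.succ) (Real.sin θ ^ 2) ^ j *
    ∏ i : Fin (n + 1), if i < l.castSucc then (segment (e l.castSucc) (e l.succ) (Real.sin θ ^ 2) - e i) ^ (-(1 / 2) : ℂ)
      else if l.succ < i then (e i - segment (e l.castSucc) (e l.succ) (Real.sin θ ^ 2)) ^ (-(1 / 2) : ℂ) else 1)

/-- The integral of `h x dx / √F`, `F = ∏ (x - e i)`, from the last branch point `e n` to `z`, with
`x = e n + (z - e n) v²`. -/
noncomputable def abelianIntegral {n : ℕ} (e : Fin (n + 1) → ℂ) (z : ℂ) (h : ℂ → ℂ) : ℂ :=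
  2 * (z - e (Fin.last n)) ^ (1 / 2 : ℂ) * ∫ v in (0 : ℝ)..1,
    h (e (Fin.last n) + (z - e (Fin.last n)) * (v : ℂ) ^ 2) *
      ∏ i : Fin n, (e (Fin.last n) + (z - e (Fin.last n)) * (v : ℂ) ^ 2 - e i.castSucc) ^ (-(1 / 2) : ℂ)

/-- The numbers. They are analytic functions on `Domain n m`, with the values at the real points stated in the
theorem. -/
noncomputable def numbers (n m : ι → ℕ) (x : Params n m → ℂ) : Coords n m → ℂ
  | ⟨i, Sum.inl (l, j)⟩ => cycleIntegral (fun r => x ⟨i, Sum.inl r⟩) l (j : ℕ)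
  | ⟨i, Sum.inr (Sum.inl (s, j))⟩ =>
      abelianIntegral (fun r => x ⟨i, Sum.inl r⟩) (x ⟨i, Sum.inr s⟩) (fun y => y ^ (j : ℕ))
  | ⟨i, Sum.inr (Sum.inr (Sum.inl q))⟩ =>
      abelianIntegral (fun r => x ⟨i, Sum.inl r⟩) (x ⟨i, Sum.inr q.1.1⟩) (fun y => (y - x ⟨i, Sum.inr q.1.2⟩)⁻¹)
  | ⟨i, Sum.inr (Sum.inr (Sum.inr q))⟩ =>
      Complex.log (x ⟨i, Sum.inr q.1.2⟩ - x ⟨i, Sum.inr q.1.1⟩) -
        Complex.log (x ⟨i, Sum.inr q.1.2⟩ - x ⟨i, Sum.inl (Fin.last (n i))⟩)

/-- The part of a family of numbers at the place of the period matrix of `C_i`. -/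
def matrix {n m : ι → ℕ} (Y : Coords n m → ℂ) (i : ι) : Matrix (Fin (n i)) (Fin (n i)) ℂ :=
  Matrix.of fun a b => Y ⟨i, Sum.inl (a, b)⟩

/-- The matrix `Q` of the Riemann-Legendre relations for `F = ∑ c_k x^k`, with the entries
`(a - b) / 2 * c_(a + b + 2)`. -/
noncomputable def legendreMatrix (n : ℕ) (F : Polynomial ℂ) : Matrix (Fin n) (Fin n) ℂ :=
  Matrix.of fun a b => (((a : ℕ) : ℂ) - ((b : ℕ) : ℂ)) / 2 * F.coeff ((a : ℕ) + (b : ℕ) + 2)

/-- The intersection matrix `J`: `-(-1)^r` at `(r, s)` with `|r - s| = 1`, `0` elsewhere. -/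
def intersectionMatrix (n : ℕ) : Matrix (Fin n) (Fin n) ℂ :=
  Matrix.of fun r s => if (r : ℕ) = s + 1 ∨ (s : ℕ) = r + 1 then -(-1) ^ (r : ℕ) else 0

/-- The torsor: the pairs `(Y, μ)`, `μ ≠ 0`, such that `Y_i Q_i Y_iᵀ = μ J` for the matrices `Y_i` of `Y`, where `Q_i` is
the matrix `Q` for `F_i`. The other coordinates of `Y` are arbitrary. -/
def Torsor (n m : ι → ℕ) (x : Params n m → ℂ) : Set ((Coords n m → ℂ) × ℂ) :=
  {p | p.2 ≠ 0 ∧ ∀ i, matrix p.1 i *
    legendreMatrix (n i) (∏ r : Fin (n i + 1), (Polynomial.X - Polynomial.C (x ⟨i, Sum.inl r⟩))) *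
    (matrix p.1 i).transpose = p.2 • intersectionMatrix (n i)}

variable [Fintype ι] [DecidableEq ι]

/-- The names have decidable equality (Mathlib's instance). -/
instance (n m : ι → ℕ) : DecidableEq (Coords n m) := inferInstance

/-- There are finitely many names (Mathlib's instance). -/
instance (n m : ι → ℕ) : Fintype (Coords n m) := inferInstance

/-- The value at `Y` of the polynomial with the coefficients `∑ a, w a * c l a` at the monomials of exponents `l`; its
degree is at most `k` in each variable. -/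
noncomputable def value (n m : ι → ℕ) {k : ℕ} (c : (Coords n m → Fin (k + 1)) → Fin k → ℂ) (w : Fin k → ℂ)
    (Y : Coords n m → ℂ) : ℂ :=
  ∑ l : Coords n m → Fin (k + 1), (∑ a, w a * c l a) * ∏ y : Coords n m, Y y ^ (l y : ℕ)

/-- All the relations of degree at most `k` with coefficients in the integers of `K` of size at most `T ^ k` between
the numbers at `x` and the constants `ξ_a`, `a < k`, hold at all the points `(Y, π)` of the torsor, and those between
the numbers at `x` and the powers `π ^ a`, `a < k`, hold on the torsor (with `μ` in place of `π`). -/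
def Generic (n m : ι → ℕ) (k : ℕ) (K : Type) [Field K] [NumberField K] (io : K →+* ℂ) (ξ : Fin k → ℂ) (T : ℝ)
    (x : Params n m → ℂ) : Prop :=
  ∀ c : (Coords n m → Fin (k + 1)) → Fin k → 𝓞 K, (∀ l a (φ : K →+* ℂ), ‖φ (c l a : K)‖ ≤ T ^ k) →
    (value n m (fun l a => io (c l a : K)) ξ (numbers n m x) = 0 →
      ∀ Y, (Y, (Real.pi : ℂ)) ∈ Torsor n m x → value n m (fun l a => io (c l a : K)) ξ Y = 0) ∧
    (value n m (fun l a => io (c l a : K)) (fun a => (Real.pi : ℂ) ^ (a : ℕ)) (numbers n m x) = 0 →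
      ∀ p ∈ Torsor n m x, value n m (fun l a => io (c l a : K)) (fun a => p.2 ^ (a : ℕ)) p.1 = 0)

/-- The elements of `K` which are quotients of two integers all of whose conjugates have absolute value at most `T`. -/
def Height (K : Type) [Field K] [NumberField K] (T : ℝ) : Set K :=
  {x | ∃ a b : 𝓞 K, b ≠ 0 ∧ house (a : K) ≤ T ∧ house (b : K) ≤ T ∧ x = a / b}

/-- The points with coordinates in `Height K T` in the compact set of the points of `Domain n m` of norm at most `k` and
at distance at least `1 / k` from the complement, which are not generic. -/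
def Exceptional (n m : ι → ℕ) (k : ℕ) (K : Type) [Field K] [NumberField K] (io : K →+* ℂ) (ξ : Fin k → ℂ) (T : ℝ) :
    Set (Params n m → K) :=
  {x | (∀ j, x j ∈ Height K T) ∧
    (‖fun j => io (x j)‖ ≤ k ∧ Metric.ball (fun j => io (x j)) (k : ℝ)⁻¹ ⊆ Domain n m) ∧
    ¬ Generic n m k K io ξ T (fun j => io (x j))}

open Pool.Agent Pool.Agent.Y890.MV Pool.Agent.Y118.HP Pool.Agent.N207.UH

omit [Fintype ι] [DecidableEq ι] in
theorem numbers_eq (n m : ι → ℕ) (x : Params n m → ℂ) : numbers n m x = num n m x := by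
  funext q
  rcases q with ⟨i, q | q | q | q⟩ <;> rfl

theorem exceptional_eq (n m : ι → ℕ) (k : ℕ) (K : Type) [Field K] [NumberField K] (io : K →+* ℂ) (ξ : Fin k → ℂ)
    (T : ℝ) : Exceptional n m k K io ξ T = N207.UH.Exceptional n m k K io ξ T := by
  have h : ∀ x : Params n m → ℂ, Generic n m k K io ξ T x ↔ N207.UH.Generic n m k K io ξ T x := by
    intro x
    unfold Generic
    rw [numbers_eq]
    rfl
  ext x
  unfold Exceptional N207.UH.Exceptional
  simp only [Set.mem_ofPred_eq, h]
  rfl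

/-- Let `n i` be even natural numbers and `m i` natural numbers, `i` in a finite nonempty set, and let `d` be the number
of the parameters, `∑ (n i + 1 + m i)`. (1) For `x` in `Domain n m` the pair of the numbers at `x` and `π` is in
`Torsor n m x`. (2) The numbers are analytic functions on `Domain n m`. (3) At the real points they are the usual
integrals. (4) There is a monotone function `ω → ∞` such that for all large `T`, all number fields `K` of degree at most
`ω T` and all complex numbers `ξ_a`, `a < ω T`: the points of `Exceptional n m (ω T) K io ξ T` lie on at most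
`T ^ (1 / ω T)` hypersurfaces of degree at most `T ^ (1 / ω T)`, and there are at most `T ^ (1 / ω T) * N ^ (d - 1)` of
them, `N` being the number of the elements of `Height K T`. -/
theorem result [Nonempty ι] (n m : ι → ℕ) (hn : ∀ i, Even (n i)) :
    (∀ x ∈ Domain n m, (numbers n m x, (Real.pi : ℂ)) ∈ Torsor n m x) ∧
    (∀ y : Coords n m, AnalyticOnNhd ℂ (fun x => numbers n m x y) (Domain n m)) ∧
    (∀ (e : ∀ i, Fin (n i + 1) → ℝ) (z : ∀ i, Fin (m i) → ℝ) (x : Params n m → ℂ),
      (∀ i r, x ⟨i, Sum.inl r⟩ = (e i r : ℂ)) → (∀ i s, x ⟨i, Sum.inr s⟩ = (z i s : ℂ)) → x ∈ Domain n m →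
      (∀ i (l j : Fin (n i)), numbers n m x ⟨i, Sum.inl (l, j)⟩ =
        ((∫ y in (e i l.castSucc)..(e i l.succ), y ^ (j : ℕ) / √|∏ r, (y - e i r)| : ℝ) : ℂ)) ∧
      (∀ i (s : Fin (m i)) (j : Fin (n i)), numbers n m x ⟨i, Sum.inr (Sum.inl (s, j))⟩ =
        ((∫ y in (e i (Fin.last (n i)))..(z i s), y ^ (j : ℕ) / √(∏ r, (y - e i r)) : ℝ) : ℂ)) ∧
      (∀ i (q : Pairs (m i)), numbers n m x ⟨i, Sum.inr (Sum.inr (Sum.inl q))⟩ =
        ((∫ y in (e i (Fin.last (n i)))..(z i q.1.1), (y - z i q.1.2)⁻¹ / √(∏ r, (y - e i r)) : ℝ) : ℂ)) ∧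
      (∀ i (q : Pairs (m i)), numbers n m x ⟨i, Sum.inr (Sum.inr (Sum.inr q))⟩ =
        ((∫ y in (e i (Fin.last (n i)))..(z i q.1.1), (y - z i q.1.2)⁻¹ : ℝ) : ℂ))) ∧
    ∃ (ω : ℝ → ℕ) (T₀ : ℝ), Tendsto ω atTop atTop ∧ Monotone ω ∧ ∀ T, T₀ ≤ T → 0 < ω T ∧
      ∀ (K : Type) [Field K] [NumberField K], Module.finrank ℚ K ≤ ω T → ∀ (io : K →+* ℂ) (ξ : Fin (ω T) → ℂ),
        (∃ Φ : Finset (MvPolynomial (Params n m) ℂ), Φ.card ≤ ⌊T ^ ((ω T : ℝ)⁻¹)⌋₊ ∧
          (∀ P ∈ Φ, P ≠ 0 ∧ P.totalDegree ≤ ⌊T ^ ((ω T : ℝ)⁻¹)⌋₊) ∧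
          ∀ x ∈ Exceptional n m (ω T) K io ξ T, ∃ P ∈ Φ, MvPolynomial.eval (fun j => io (x j)) P = 0) ∧
        (Exceptional n m (ω T) K io ξ T).Finite ∧
        ((Exceptional n m (ω T) K io ξ T).ncard : ℝ) ≤
          T ^ ((ω T : ℝ)⁻¹) * ((Height K T).ncard : ℝ) ^ (Fintype.card (Params n m) - 1) := by
  have hlvl : ∀ (i : ι) (c : Co (n i) (m i)), lvl 0 c := by
    intro i c
    rcases c with q | q
    · trivial
    · exact Nat.zero_le _
  refine ⟨fun x hx => ?_, fun y => ?_, ?_, ?_⟩
  · rw [numbers_eq]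
    exact num_mem hn hx
  · have h1 : (fun x => numbers n m x y) = fun x => num n m x y := by
      funext x
      rw [numbers_eq]
    rw [h1]
    have h2 : Domain n m = USig (fun i => DK (n i) (m i) 0) := conf_eq n m
    rw [h2]
    exact fSig_an (f' := fun i => fU (n i) (m i)) (fun i s => fU_an 0 s (hlvl i s)) y
  · intro e z x he hz hx
    have hfe : ∀ i, (fun r => x ⟨i, Sum.inl r⟩) = fun r => ((e i r : ℝ) : ℂ) := fun i => funext (he i)
    have hmono : ∀ i, StrictMono (e i) := by
      intro i r s hrs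
      have h1 := (hx i).1 r s hrs
      rw [he, he] at h1
      simpa using h1
    have hlt : ∀ i s, e i (Fin.last (n i)) < z i s := by
      intro i s
      have h1 := (hx i).2.1 s
      rw [he, hz] at h1
      simpa using h1
    have hzz : ∀ i (q : Pairs (m i)), z i q.1.1 < z i q.1.2 := by
      intro i q
      have h1 := (hx i).2.2 q.1.1 q.1.2 q.2
      rw [hz, hz] at h1
      simpa using h1
    refine ⟨fun i l j => ?_, fun i s j => ?_, fun i q => ?_, fun i q => ?_⟩
    · show perC (fun r => x ⟨i, Sum.inl r⟩) l (j : ℕ) = _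
      rw [hfe]
      have h1 := perC_eq_perT (hmono i) l (j : ℕ)
      rw [← per_eq_perT (hmono i)] at h1
      exact h1
    · show abI (fun r => x ⟨i, Sum.inl r⟩) (x ⟨i, Sum.inr s⟩) (fun y => y ^ (j : ℕ)) = _
      rw [hfe, hz]
      exact abI_real (hmono i) (hlt i s) (fun y => y ^ (j : ℕ)) _ fun y _ _ => by push_cast; rfl
    · show abI (fun r => x ⟨i, Sum.inl r⟩) (x ⟨i, Sum.inr q.1.1⟩) (fun y => (y - x ⟨i, Sum.inr q.1.2⟩)⁻¹) = _
      rw [hfe, hz, hz]
      exact abI_real (hmono i) (hlt i q.1.1) (fun y => (y - z i q.1.2)⁻¹) _ fun y _ _ => by push_cast; rfl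
    · show Complex.log (x ⟨i, Sum.inr q.1.2⟩ - x ⟨i, Sum.inr q.1.1⟩) -
        Complex.log (x ⟨i, Sum.inr q.1.2⟩ - x ⟨i, Sum.inl (Fin.last (n i))⟩) = _
      rw [hz, hz, he]
      exact log_real (hlt i q.1.1) (hzz i q)
  · obtain ⟨ω, T₀, h1, h2, h3⟩ := main n m hn
    refine ⟨ω, T₀, h1, h2, fun T hT => ⟨(h3 T hT).1, fun K _ _ hK io ξ => ?_⟩⟩
    obtain ⟨⟨Φ, hc, hd, hz⟩, h5, h6⟩ := (h3 T hT).2 K hK io ξ
    rw [exceptional_eq]
    exact ⟨⟨Φ, hc, hd, fun x hx => hz _ ⟨x, hx, rfl⟩⟩, h5, h6⟩

end Pool.Agent.Results.MP_290158_ag.UniversalHyperelliptic
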